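import Pool.Agent.Lib.MP_948f5d_co.Proof

namespace Pool.Agent.Results.MP_948f5d_co.LinkPrime

open Pool.Agent.Lib.MP_948f5d_co

/-- In a simply-laced Coxeter system the braid graph of a link is not a box product of two
graphs with at least two vertices each. -/
theorem result {B W : Type} [Group W] (M : CoxeterMatrix B) (cs : CoxeterSystem M W)
    (hM : ∀ s t : B, s ≠ t → M s t = 2 ∨ M s t = 3) (α : List B) (hα : IsLink cs α)
    {V₁ V₂ : Type} [Nontrivial V₁] [Nontrivial V₂] (G : SimpleGraph V₁) (H : SimpleGraph V₂) :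
    IsEmpty (braidGraph M α ≃g G.boxProd H) :=
  ⟨fun φ => main hα.2 φ.symm⟩

end Pool.Agent.Results.MP_948f5d_co.LinkPrime
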